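import Pool.Agent.H10.GF

namespace Pool.Agent.Results.MP_65983e_an.Guarded
open Filter Topology Finset Pool.Agent.H10.GF

/-- Linear maps `T : F → X` with `(1+δ)⁻¹ ‖x‖ ≤ ‖T x‖ ≤ (1+δ) ‖x‖`. -/
def Emb {X : Type} [NormedAddCommGroup X] [NormedSpace ℝ X] (δ : ℝ) (F : Submodule ℝ X) :
    Set (F →ₗ[ℝ] X) :=
  {T | ∀ x, (1 + δ)⁻¹ * ‖x‖ ≤ ‖T x‖ ∧ ‖T x‖ ≤ (1 + δ) * ‖x‖}

/-- Guarded Fraisse: the operator norm of `ι'|E - T ∘ ι|E` is at most some `c < ε`. -/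
def Guarded (X : Type) [NormedAddCommGroup X] [NormedSpace ℝ X] : Prop :=
  ∀ E : Submodule ℝ X, FiniteDimensional ℝ E → ∀ ε > (0 : ℝ), ∃ δ > (0 : ℝ), ∃ F : Submodule ℝ X,
    E ≤ F ∧ FiniteDimensional ℝ F ∧ ∀ ι ∈ Emb δ F, ∀ ι' ∈ Emb δ F, ∃ T : X ≃ₗᵢ[ℝ] X,
      ∃ c < ε, ∀ x : F, (x : X) ∈ E → ‖ι' x - T (ι x)‖ ≤ c * ‖x‖

section
variable {E : ℕ → Type} [∀ i, NormedAddCommGroup (E i)] [∀ i, NormedSpace ℝ (E i)]
  [∀ i, FiniteDimensional ℝ (E i)] {a : ℕ → ℝ} (ha : StrictAnti a)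
    (H1 : ∀ i (x y : E i), 2 * ‖x‖ ^ 2 + 2 * ‖y‖ ^ 2 - ‖x + y‖ ^ 2 - ‖x - y‖ ^ 2 ≤
      a i * (‖x‖ ^ 2 + ‖y‖ ^ 2))
    (H2 : ∀ j, ∃ x y : E j, ‖x‖ = 1 ∧ ‖y‖ = 1 ∧ ‖x + y‖ ^ 2 + ‖x - y‖ ^ 2 = 4 - 2 * a j ∧
      ∀ z, ∃ s t : ℝ, z = s • x + t • y)
include ha H1 H2

theorem near (V : Submodule ℝ (lp E 2)) [FiniteDimensional ℝ V] {ε : ℝ} (hε : 0 < ε) :
    ∃ δ > (0 : ℝ), ∃ F : Submodule ℝ (lp E 2), V ≤ F ∧ FiniteDimensional ℝ F ∧
      ∀ ι ∈ Emb δ F, ∃ G : lp E 2 ≃ₗᵢ[ℝ] lp E 2, ∀ x : F, x.1 ∈ V → ‖ι x - G x‖ ≤ ε * ‖x‖ := by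
  let P : ℕ → lp E 2 →ₗ[ℝ] lp E 2 := fun k =>
    ∑ i ∈ range k, lp.lsingle 2 i ∘ₗ lp.evalₗ (𝕜 := ℝ) E 2 i
  have hP : ∀ k x, P k x = ∑ i ∈ range k, lp.single 2 i (x i) := fun k x => by
    simp only [P, LinearMap.sum_apply]; rfl
  obtain ⟨k, hk⟩ := (unif (l := atTop) (fun k => V.subtype - P k ∘ₗ V.subtype) (fun y => by
    have := ((lp.hasSum_single (by simp) y.1).tendsto_sum_nat).const_sub y.1
    simpa [hP] using this) (ε := ε / 4) (by positivity)).exists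
  let F := V ⊔ ⨆ i : Fin k, LinearMap.range (lp.lsingle (𝕜 := ℝ) (E := E) 2 i)
  have hF : ∀ j < k, ∀ w, lp.single 2 j w ∈ F := fun j hj w =>
    Submodule.mem_sup_right (Submodule.mem_iSup_of_mem ⟨j, hj⟩ ⟨w, rfl⟩)
  have PF : ∀ x, P k x ∈ F := fun x => by
    rw [hP]; exact F.sum_mem fun i hi => hF i (mem_range.1 hi) _
  by_contra! h
  have h' := fun m : ℕ => h (1 / ((m : ℝ) + 1)) (by positivity) F le_sup_left inferInstance
  choose ι h1 h2 using h'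
  choose T hT using fun m => (ι m).exists_extend
  have eT : ∀ m (x : F), T m x = ι m x := fun m x => LinearMap.congr_fun (hT m) x
  let U := hyperfilter ℕ
  have hU : (U : Filter ℕ) ≤ atTop := Nat.hyperfilter_le_atTop
  have t0 : Tendsto (fun m : ℕ => 1 + 1 / ((m : ℝ) + 1)) U (𝓝 1) := by
    simpa using (tendsto_one_div_add_atTop_nhds_zero_nat.const_add (1 : ℝ)).mono_left hU
  have tT : ∀ x ∈ F, Tendsto (fun m => ‖T m x‖) U (𝓝 ‖x‖) := fun x hx => by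
    refine tendsto_of_tendsto_of_tendsto_of_le_of_le
      (by simpa using (t0.inv₀ one_ne_zero).mul_const ‖x‖) (by simpa using t0.mul_const ‖x‖)
      (fun m => ?_) fun m => ?_
    · simpa [← eT] using (h1 m ⟨x, hx⟩).1
    · simpa [← eT] using (h1 m ⟨x, hx⟩).2
  choose g hg using step ha H1 H2 U T F tT k hF
  let G := diag fun i => if h : i < k then g i h else .refl ℝ _
  obtain ⟨m, hm⟩ := (unif (l := U) (fun m => (T m - G.toLinearEquiv.toLinearMap) ∘ₗ P k ∘ₗ V.subtype)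
    (fun y => by
      have := tendsto_finsetSum (range k) (f := fun i m => T m (lp.single 2 i (y.1 i)))
        (a := fun i => G (lp.single 2 i (y.1 i))) (x := U) fun i hi => by
          simpa only [G, diag_single, dif_pos (mem_range.1 hi)] using hg i (mem_range.1 hi) (y.1 i)
      simpa [hP, map_sum] using tendsto_sub_nhds_zero_iff.2 this) (ε := ε / 4) (by positivity)).exists
  obtain ⟨x, hx, e⟩ := h2 m G
  have a1 : ‖x.1 - P k x‖ ≤ ε / 4 * ‖x‖ := hk ⟨x, hx⟩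
  have a2 : ‖T m (P k x) - G (P k x)‖ ≤ ε / 4 * ‖x‖ := hm ⟨x, hx⟩
  have a3 : ‖T m (x.1 - P k x)‖ ≤ (1 + 1 / ((m : ℝ) + 1)) * ‖x.1 - P k x‖ :=
    (eT m ⟨_, F.sub_mem x.2 (PF _)⟩).symm ▸ (h1 m ⟨_, F.sub_mem x.2 (PF _)⟩).2
  have a4 : 1 / ((m : ℝ) + 1) ≤ 1 := by rw [div_le_one (by positivity)]; simp
  have a5 : ι m x - G x = T m (x.1 - P k x) + (T m (P k x) - G (P k x)) - G (x.1 - P k x) := by
    simp [eT]
  have a6 := norm_sub_le_of_le (norm_add_le_of_le a3 a2) ((G.norm_map _).trans_le a1)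
  rw [← a5] at a6
  nlinarith [norm_nonneg (x.1 - P k x)]

theorem main : CompleteSpace (lp E 2) ∧ TopologicalSpace.SeparableSpace (lp E 2) ∧
    ¬ FiniteDimensional ℝ (lp E 2) ∧ Guarded (lp E 2) ∧ ∃ u : ℕ → lp E 2, (∀ n, ‖u n‖ ≤ 1) ∧
      ∀ m n, m ≠ n → ∀ g h : lp E 2 ≃ₗᵢ[ℝ] lp E 2, 1 ≤ ‖g (u m) - h (u n)‖ := by
  have iso : ∀ (g : lp E 2 ≃ₗᵢ[ℝ] lp E 2) j, ∃ g' : E j ≃ₗᵢ[ℝ] E j,
      ∀ w, g (lp.single 2 j w) = lp.single 2 j (g' w) := fun g j => by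
    obtain ⟨g', h⟩ := step ha H1 H2 (pure 0) (fun _ => g.toLinearEquiv.toLinearMap) ⊤
      (fun x _ => by simpa using tendsto_const_nhds) (j + 1) (fun _ _ _ => trivial) j (lt_add_one j)
    exact ⟨g', fun w => tendsto_nhds_unique tendsto_const_nhds (h w)⟩
  choose x y hx _ using id H2
  have sep : ∀ m n, m ≠ n → ∀ g h : lp E 2 ≃ₗᵢ[ℝ] lp E 2,
      1 ≤ ‖g (lp.single 2 m (x m)) - h (lp.single 2 n (x n))‖ := fun m n hmn g h => by
    obtain ⟨g', hg⟩ := iso g m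
    obtain ⟨h', hh⟩ := iso h n
    refine le_trans ?_ (lp.norm_apply_le_norm (by simp) _ m)
    simp [hg, hh, Pi.single_eq_of_ne hmn, hx]
  have nu : ∀ n, ‖lp.single (E := E) 2 n (x n)‖ ≤ 1 := fun n =>
    ((lp.norm_single (by simp) _ _).trans (hx n)).le
  refine ⟨inferInstance, ?_, fun fd => ?_, fun V _ ε hε => ?_, _, nu, sep⟩
  · rw [← TopologicalSpace.isSeparable_univ_iff]
    refine (TopologicalSpace.IsSeparable.span (R := ℝ) (.iUnion fun i =>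
      TopologicalSpace.isSeparable_range (lp.isometry_single (E := E) (p := 2) i).continuous)
      ).closure.mono fun v _ => ?_
    exact mem_closure_of_tendsto (lp.hasSum_single (by simp) v).tendsto_sum_nat
      (.of_forall fun k => Submodule.sum_mem _ fun i _ =>
        Submodule.subset_span (Set.mem_iUnion.2 ⟨i, _, rfl⟩))
  · haveI := FiniteDimensional.proper_real (lp E 2)
    obtain ⟨v, -, φ, h1, h2⟩ := (isCompact_closedBall (0 : lp E 2) 1).tendsto_subseq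
      fun n => mem_closedBall_zero_iff.2 (nu n)
    have := ge_of_tendsto' ((h2.comp (tendsto_add_atTop_nat 1)).sub h2).norm fun n =>
      sep _ _ (h1 (lt_add_one n)).ne' (.refl ℝ _) (.refl ℝ _)
    norm_num at this
  · obtain ⟨δ, hδ, F, h1, h2, h3⟩ := near ha H1 H2 V (ε := ε / 3) (by positivity)
    refine ⟨δ, hδ, F, h1, h2, fun ι hι ι' hι' => ?_⟩
    obtain ⟨G, hG⟩ := h3 ι hι
    obtain ⟨G', hG'⟩ := h3 ι' hι'
    refine ⟨G.symm.trans G', 2 * (ε / 3), by linarith, fun v hv => ?_⟩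
    have e : ‖G' v - (G.symm.trans G') (ι v)‖ = ‖ι v - G v‖ := by
      rw [LinearIsometryEquiv.trans_apply, ← map_sub, G'.norm_map, ← G.norm_map, map_sub,
        G.apply_symm_apply, norm_sub_rev]
    have := norm_sub_le_norm_sub_add_norm_sub (ι' v) (G' v) ((G.symm.trans G') (ι v))
    linarith [hG v hv, hG' v hv]
end

noncomputable def f (a : ℝ) : ℂ →ₗ[ℝ] WithLp 2 (ℂ × ℝ × ℝ) :=
  (WithLp.linearEquiv 2 ℝ _).symm.toLinearMap ∘ₗ
    (√(1 - a) • LinearMap.id).prod (√a • Complex.reLm.prod Complex.imLm)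

theorem nf {a : ℝ} (h0 : 0 ≤ a) (h1 : a ≤ 1) (z : ℂ) :
    ‖(f a).rangeRestrict z‖ ^ 2 = (1 - a) * ‖z‖ ^ 2 + a * ‖(z.re, z.im)‖ ^ 2 := by
  change ‖f a z‖ ^ 2 = _
  rw [WithLp.prod_norm_sq_eq_of_L2]
  change ‖√(1 - a) • z‖ ^ 2 + ‖√a • (z.re, z.im)‖ ^ 2 = _
  simp only [norm_smul, mul_pow, Real.norm_eq_abs, sq_abs, Real.sq_sqrt h0,
    Real.sq_sqrt (sub_nonneg.2 h1)]

theorem result : ∃ (X : Type) (_ : NormedAddCommGroup X) (_ : NormedSpace ℝ X),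
    CompleteSpace X ∧ TopologicalSpace.SeparableSpace X ∧ ¬ FiniteDimensional ℝ X ∧ Guarded X ∧
    ∃ u : ℕ → X, (∀ n, ‖u n‖ ≤ 1) ∧
      ∀ m n, m ≠ n → ∀ g h : X ≃ₗᵢ[ℝ] X, 1 ≤ ‖g (u m) - h (u n)‖ := by
  let a : ℕ → ℝ := fun n => 1 / ((n : ℝ) + 1)
  have a0 : ∀ n, 0 ≤ a n := fun n => by positivity
  have a1 : ∀ n, a n ≤ 1 := fun n => by rw [div_le_one (by positivity)]; simp
  refine ⟨lp (fun n => LinearMap.range (f (a n))) 2, inferInstance, inferInstance,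
    main (a := a) (fun m n h => one_div_lt_one_div_of_lt (by positivity) (by simpa)) ?_ ?_⟩
  · intro i x y
    obtain ⟨z, rfl⟩ := (f (a i)).surjective_rangeRestrict x
    obtain ⟨w, rfl⟩ := (f (a i)).surjective_rangeRestrict y
    rw [← map_add, ← map_sub]
    simp only [nf (a0 i) (a1 i)]
    have par := parallelogram_law_with_norm ℝ z w
    have le : ∀ z : ℂ, ‖(z.re, z.im)‖ ^ 2 ≤ ‖z‖ ^ 2 := fun z => pow_le_pow_left₀ (norm_nonneg _)
      (max_le (Complex.abs_re_le_norm z) (Complex.abs_im_le_norm z)) 2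
    have e1 : ((z + w).re, (z + w).im) = (z.re, z.im) + (w.re, w.im) := rfl
    have e2 : ((z - w).re, (z - w).im) = (z.re, z.im) - (w.re, w.im) := rfl
    rw [e1, e2]
    have lz := le z
    have lw := le w
    set p := (z.re, z.im)
    set q := (w.re, w.im)
    have b1 : 2 * ‖p‖ ≤ ‖p + q‖ + ‖p - q‖ := by
      simpa [← two_smul ℝ p, norm_smul] using norm_add_le (p + q) (p - q)
    have b2 : 2 * ‖q‖ ≤ ‖p + q‖ + ‖p - q‖ := by
      simpa [← two_smul ℝ q, norm_smul] using norm_sub_le (p + q) (p - q)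
    have b3 : ‖p‖ ^ 2 + ‖q‖ ^ 2 ≤ ‖p + q‖ ^ 2 + ‖p - q‖ ^ 2 := by
      nlinarith [norm_nonneg p, norm_nonneg q, sq_nonneg (‖p + q‖ - ‖p - q‖)]
    have c := mul_nonneg (a0 i) (sub_nonneg.2 (a1 i))
    nlinarith [mul_le_mul_of_nonneg_left b3 (a0 i), mul_le_mul_of_nonneg_left lz c,
      mul_le_mul_of_nonneg_left lw c, congrArg ((1 - a i) * ·) par]
  · intro j
    have n := nf (a0 j) (a1 j)
    refine ⟨(f (a j)).rangeRestrict 1, (f (a j)).rangeRestrict Complex.I, ?_, ?_, ?_, fun x => ?_⟩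
    · exact (pow_eq_one_iff_of_nonneg (norm_nonneg _) two_ne_zero).1 (by rw [n]; simp)
    · exact (pow_eq_one_iff_of_nonneg (norm_nonneg _) two_ne_zero).1 (by rw [n]; simp)
    · rw [← map_add, ← map_sub, n, n]
      simp [Complex.sq_norm, Complex.normSq_apply]
      ring
    · obtain ⟨z, rfl⟩ := (f (a j)).surjective_rangeRestrict x
      refine ⟨z.re, z.im, ?_⟩
      rw [← map_smul, ← map_smul, ← map_add]
      simp

end Pool.Agent.Results.MP_65983e_an.Guarded
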